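import Mathlib
import Pool.Agent.X7.KneserTools
import Pool.Agent.X7.Fiber

/-!
# Signed zero-3-sum-free sets in cyclic groups

For every positive integer `n`, the maximum size of a set `A ⊆ ℤ_n` with `0 ∉ 3_± A` is `v(n)`.
-/

set_option autoImplicit false

open Finset
open scoped Pointwise

namespace Pool.Agent.Results.MP_25b479_co.ExactTau

open Pool.Agent.Helper591.Kneser Pool.Agent.X7.KneserTools Pool.Agent.X7.Fiber

/-- `A` is zero-3-sum-free over `ℤ`: there are no `a, b, c ∈ A`, not necessarily distinct, with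
`a + b + c = 0` or `a + b = c`. -/
def ZeroThreeFree {G : Type} [AddCommGroup G] (A : Finset G) : Prop :=
  ∀ a ∈ A, ∀ b ∈ A, ∀ c ∈ A, a + b + c ≠ 0 ∧ a + b ≠ c

/-- `τ_±(ℤ_n, 3)`: the maximum size of a zero-3-sum-free set over `ℤ` in `ℤ_n`. -/
noncomputable def tau (n : ℕ) : ℕ :=
  sSup {m | ∃ A : Finset (ZMod n), ZeroThreeFree A ∧ A.card = m}

open Classical in
/-- `v(n)`: `(1 + 1/p) n/3` if `n` has a prime divisor congruent to `2` modulo `3` and `p` is the
smallest one; otherwise `⌊(n-1)/3⌋`. -/
noncomputable def v (n : ℕ) : ℚ :=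
  if h : ∃ p : ℕ, p.Prime ∧ p ∣ n ∧ p % 3 = 2 then (1 + 1 / (Nat.find h : ℚ)) * ((n : ℚ) / 3)
  else (((n - 1) / 3 : ℕ) : ℚ)

section upper

variable {G : Type} [AddCommGroup G] [Fintype G] [DecidableEq G]

theorem kneser_bound {A : Finset G} (hne : A.Nonempty) (hA : ZeroThreeFree A) :
    3 * (A + els (stab (A + A))).card ≤ Fintype.card G + (els (stab (A + A))).card ∧
      Disjoint (A + els (stab (A + A))) (A + A) := by
  have hk := kneser_iter hne 2 (by norm_num)
  have h2 : sm 2 A = A + A := by rw [sm_succ, sm_one]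
  rw [h2] at hk
  set H := stab (A + A) with hH
  have hdisj : Disjoint (A + els H) (A + A) := by
    rw [disjoint_left]
    intro x hx hx2
    obtain ⟨a, ha, g, hg, rfl⟩ := mem_add.1 hx
    have h1 : g + a ∈ A + A := by rwa [add_comm g a]
    have h2 : a ∈ A + A := (mem_els.1 hg a).1 h1
    obtain ⟨b, hb, c, hc, hbc⟩ := mem_add.1 h2
    exact (hA b hb c hc a ha).2 hbc
  refine ⟨?_, hdisj⟩
  have hu : (A + els H).card + (A + A).card ≤ Fintype.card G := by
    rw [← card_union_of_disjoint hdisj]
    exact card_le_univ _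
  omega

/-- In a group of odd order, a zero-3-sum-free set cannot have exactly one third of the elements
when its `H`-closure has the same size. -/
theorem no_third (hodd : Odd (Fintype.card G)) {A : Finset G} (hne : A.Nonempty)
    (hA : ZeroThreeFree A) (h3 : 3 * A.card = Fintype.card G)
    (hper : stab (A + A) ≤ stab A) : False := by
  set H := stab (A + A) with hH
  have h0A : (0 : G) ∉ A := fun h0 => (hA 0 h0 0 h0 0 h0).2 (by simp)
  have hApA : A + els H = A := add_els_eq hper
  have hk := kneser hne hne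
  rw [← hH] at hk
  set B := A ∪ -A with hB
  have hBsym : ∀ x, x ∈ B → -x ∈ B := by
    intro x hx
    rw [hB, mem_union, mem_neg'] at hx ⊢
    rw [neg_neg]
    exact hx.symm
  have hdisjB : Disjoint B (A + A) := by
    rw [disjoint_left]
    intro x hx hx2
    obtain ⟨b, hb, c, hc, hbc⟩ := mem_add.1 hx2
    rw [hB, mem_union, mem_neg'] at hx
    rcases hx with hx | hx
    · exact (hA b hb c hc x hx).2 hbc
    · exact (hA b hb c hc (-x) hx).1 (by rw [hbc, add_neg_cancel])
  set T := A \ (-A) with hT
  have hBcard : B.card = A.card + T.card := by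
    have h1 : (-A).card = A.card := card_neg A
    have h2 : B.card + (A ∩ -A).card = A.card + A.card := by
      rw [hB, card_union_add_card_inter, h1]
    have h3 : T.card + (A ∩ -A).card = A.card := by
      rw [hT]; exact card_sdiff_add_card_inter A (-A)
    omega
  have hTper : H ≤ stab T := by
    intro g hg
    apply mem_stab_of_forall
    intro x hx
    rw [hT, mem_sdiff, mem_neg'] at hx ⊢
    refine ⟨(hper hg x).2 hx.1, fun hcon => hx.2 ?_⟩
    have h1 : -g ∈ stab A := (stab A).neg_mem (hper hg)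
    have h2 : -(g + x) = -g + -x := by abel
    rw [h2] at hcon
    exact (h1 (-x)).1 hcon
  -- `T` is nonempty, by parity
  have hTne : T.Nonempty := by
    rw [nonempty_iff_ne_empty]
    intro hTe
    have hAsym : ∀ x ∈ A, -x ∈ A := by
      intro x hx
      have : x ∉ T := by rw [hTe]; exact notMem_empty x
      rw [hT, mem_sdiff, mem_neg'] at this
      by_contra hcon
      exact this ⟨hx, hcon⟩
    have hodd' := odd_card_of_symm hodd (B := insert 0 A) (mem_insert_self 0 A) (by
      intro x hx
      rw [mem_insert] at hx ⊢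
      rcases hx with rfl | hx
      · left; exact neg_zero
      · right; exact hAsym x hx)
    rw [card_insert_of_notMem h0A] at hodd'
    rw [← h3] at hodd
    have hA' : Odd A.card := (Nat.odd_mul.1 hodd).2
    obtain ⟨k, hk⟩ := hodd'
    obtain ⟨l, hl⟩ := hA'
    omega
  have hTH : (els H).card ≤ T.card := by
    obtain ⟨c, hc⟩ := card_dvd_of_le_stab hTper
    have : 0 < T.card := card_pos.2 hTne
    rcases Nat.eq_zero_or_pos c with rfl | hc0
    · omega
    · rw [hc]; exact Nat.le_mul_of_pos_right _ hc0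
  have hu : B.card + (A + A).card ≤ Fintype.card G := by
    rw [← card_union_of_disjoint hdisjB]
    exact card_le_univ _
  have hTcard : T.card = (els H).card := by omega
  have hAA : (A + A).card + B.card = Fintype.card G := by omega
  have hcompl : ∀ x, x ∉ B → x ∈ A + A := by
    intro x hx
    have : B ∪ (A + A) = univ := by
      rw [← card_eq_iff_eq_univ, card_union_of_disjoint hdisjB]
      omega
    have hx' : x ∈ B ∪ (A + A) := by rw [this]; exact mem_univ x
    exact (mem_union.1 hx').resolve_left hx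
  have hAAsym : ∀ x, x ∈ A + A → -x ∈ A + A := by
    intro x hx
    apply hcompl
    intro hcon
    have := hBsym _ hcon
    rw [neg_neg] at this
    exact disjoint_left.1 hdisjB this hx
  have hHAA : ∀ g ∈ H, g ∈ A + A := by
    intro g hg
    apply hcompl
    intro hcon
    rw [hB, mem_union, mem_neg'] at hcon
    rcases hcon with hcon | hcon
    · apply h0A
      apply (hper hg 0).1
      rwa [add_zero]
    · apply h0A
      apply (hper (H.neg_mem hg) 0).1
      rwa [add_zero]
  -- `T` is a single coset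
  obtain ⟨x0, hx0⟩ := hTne
  have hTcoset : ∀ x ∈ T, x - x0 ∈ H := by
    have himg : (els H).image (fun g => g + x0) = T := by
      apply eq_of_subset_of_card_le
      · intro y hy
        obtain ⟨g, hg, rfl⟩ := mem_image.1 hy
        exact (hTper (mem_els.1 hg) x0).2 hx0
      · rw [hTcard, card_image_of_injective _ (add_left_injective x0)]
    intro x hx
    rw [← himg, mem_image] at hx
    obtain ⟨g, hg, rfl⟩ := hx
    rw [add_sub_cancel_right]
    exact mem_els.1 hg
  have hBB : B + B = A + A := by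
    apply Subset.antisymm
    · intro z hz
      obtain ⟨b, hb, b', hb', rfl⟩ := mem_add.1 hz
      have hneg : ∀ b b' : G, -b ∈ A → -b' ∈ A → b + b' ∈ A + A := by
        intro b b' h1 h2
        have h3 := hAAsym _ (add_mem_add h1 h2)
        have h4 : -(-b + -b') = b + b' := by abel
        rwa [h4] at h3
      have hmix : ∀ b b' : G, b ∈ A → -b' ∈ A → b + b' ∈ A + A := by
        intro b b' h1 h2
        by_cases hb1 : -b ∈ A
        · exact hneg b b' hb1 h2
        · by_cases hb2 : b' ∈ A
          · exact add_mem_add h1 hb2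
          · apply hHAA
            have hbT : b ∈ T := by
              rw [hT, mem_sdiff, mem_neg']; exact ⟨h1, hb1⟩
            have hb'T : -b' ∈ T := by
              rw [hT, mem_sdiff, mem_neg', neg_neg]; exact ⟨h2, hb2⟩
            have h5 := H.sub_mem (hTcoset b hbT) (hTcoset _ hb'T)
            have h6 : b - x0 - (-b' - x0) = b + b' := by abel
            rwa [h6] at h5
      rw [hB, mem_union, mem_neg'] at hb hb'
      rcases hb with hb | hb <;> rcases hb' with hb' | hb'
      · exact add_mem_add hb hb'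
      · exact hmix b b' hb hb'
      · rw [add_comm b b']; exact hmix b' b hb' hb
      · exact hneg b b' hb hb'
    · exact add_subset_add subset_union_left subset_union_left
  have hBne : B.Nonempty := hne.mono subset_union_left
  have hk2 := kneser hBne hBne
  rw [hBB, ← hH] at hk2
  have := card_els_pos H
  omega

end upper

theorem mod_three_aux (d : ℕ) : (∀ q : ℕ, q.Prime → q ∣ d → q % 3 ≠ 2) → d ≠ 0 → d % 3 ≠ 2 := by
  induction d using Nat.strong_induction_on with
  | _ d ih =>
    intro h hd0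
    rcases Nat.lt_or_ge d 2 with hd | hd
    · omega
    · have hp : d.minFac.Prime := Nat.minFac_prime (by omega)
      obtain ⟨k, hk⟩ := Nat.minFac_dvd d
      have hp2 := hp.two_le
      have hk0 : k ≠ 0 := by
        rintro rfl
        rw [mul_zero] at hk
        exact hd0 hk
      have hkd : k < d := by
        have h2 : 2 * k ≤ d.minFac * k := Nat.mul_le_mul_right k hp2
        rw [← hk] at h2
        omega
      have h1 : k % 3 ≠ 2 := ih k hkd (fun q hq hqk => h q hq (hk ▸ Dvd.dvd.mul_left hqk _)) hk0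
      have h2 : d.minFac % 3 ≠ 2 := h _ hp (Nat.minFac_dvd d)
      have h3 : d % 3 = ((d.minFac % 3) * (k % 3)) % 3 := by
        conv_lhs => rw [hk, Nat.mul_mod]
      rcases (by omega : d.minFac % 3 = 0 ∨ d.minFac % 3 = 1) with ha | ha <;>
        rcases (by omega : k % 3 = 0 ∨ k % 3 = 1) with hb | hb <;>
        · rw [ha, hb] at h3
          omega

/-- The upper bound in terms of a divisor. -/
theorem upper_dvd (n : ℕ) [NeZero n] (A : Finset (ZMod n)) (hA : ZeroThreeFree A)
    (hne : A.Nonempty) : ∃ d e : ℕ, d * e = n ∧ 1 ≤ e ∧ 3 * A.card ≤ (d + 1) * e ∧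
      (d % 3 ≠ 2 → 3 * A.card ≤ d * e) ∧ (d % 3 = 1 → 3 * A.card ≤ (d - 1) * e) ∧
      (Odd n → d % 3 ≠ 2 → 3 * A.card ≠ n) := by
  classical
  obtain ⟨hb, hdisj⟩ := kneser_bound hne hA
  have hno : Odd n → stab (A + A) ≤ stab A → 3 * A.card ≠ n := by
    intro hodd hper h3
    exact no_third (by rwa [ZMod.card]) hne hA (by rwa [ZMod.card]) hper
  set H := stab (A + A) with hH
  obtain ⟨a, ha⟩ := card_dvd_of_le_stab (le_stab_add_els A H)
  obtain ⟨d, hd⟩ := els_card_dvd H
  have hpos := card_els_pos H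
  have hsub : A ⊆ A + els H := by
    intro x hx
    exact mem_add.2 ⟨x, hx, 0, mem_els.2 H.zero_mem, add_zero x⟩
  have hle : A.card ≤ (A + els H).card := card_le_card hsub
  rw [ha] at hb hle
  rw [hd] at hb
  rw [ZMod.card] at hd
  set e := (els H).card with he
  have h3a : 3 * a ≤ d + 1 := by
    have : e * (3 * a) ≤ e * (d + 1) := by
      calc e * (3 * a) = 3 * (e * a) := by ring
        _ ≤ e * d + e := hb
        _ = e * (d + 1) := by ring
    exact Nat.le_of_mul_le_mul_left this hpos
  have key : ∀ m, 3 * a ≤ m → 3 * A.card ≤ m * e := by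
    intro m hm
    calc 3 * A.card ≤ 3 * (e * a) := Nat.mul_le_mul_left 3 hle
      _ = 3 * a * e := by ring
      _ ≤ m * e := Nat.mul_le_mul_right e hm
  refine ⟨d, e, by rw [hd, mul_comm], hpos, key _ h3a, fun h => key _ (by omega),
    fun h => key _ (by omega), ?_⟩
  intro hodd hd2 h3
  have h3ad : 3 * a ≤ d := by omega
  have hAeq : A = A + els H := by
    apply eq_of_subset_of_card_le hsub
    rw [ha]
    have h1 : 3 * (e * a) ≤ n := by
      rw [hd]
      calc 3 * (e * a) = e * (3 * a) := by ring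
        _ ≤ e * d := Nat.mul_le_mul_left e h3ad
    omega
  refine hno hodd ?_ h3
  have hle2 := le_stab_add_els A H
  rwa [← hAeq] at hle2

theorem tau_le (n : ℕ) [NeZero n] : ∀ m ∈ {m | ∃ A : Finset (ZMod n), ZeroThreeFree A ∧ A.card = m},
    m ≤ n := by
  rintro m ⟨A, -, rfl⟩
  calc A.card ≤ Fintype.card (ZMod n) := card_le_univ A
    _ = n := ZMod.card n

/-- A lower bound from a divisor `d`. -/
theorem lower_dvd (d e : ℕ) (hd : 1 ≤ d) (he : 1 ≤ e) :
    ∃ A : Finset (ZMod (d * e)), ZeroThreeFree A ∧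
      A.card = ((range d).filter (fun r => d < 3 * r ∧ 3 * r < 2 * d)).card * e := by
  have : NeZero d := ⟨by omega⟩
  have : NeZero (d * e) := ⟨by positivity⟩
  set f := ZMod.castHom (dvd_mul_right d e) (ZMod d) with hf
  set J := (univ : Finset (ZMod d)).filter (fun x => d < 3 * x.val ∧ 3 * x.val < 2 * d) with hJ
  have hval : ∀ x : ZMod (d * e), (((f x).val : ℕ) : ZMod d) = f x := fun x =>
    ZMod.natCast_zmod_val (f x)
  refine ⟨univ.filter (fun x => f x ∈ J), ?_, ?_⟩
  · intro a ha b hb c hc
    rw [mem_filter, hJ, mem_filter] at ha hb hc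
    obtain ⟨-, -, ha1, ha2⟩ := ha
    obtain ⟨-, -, hb1, hb2⟩ := hb
    obtain ⟨-, -, hc1, hc2⟩ := hc
    constructor
    · intro h
      have h1 : (((f a).val + (f b).val + (f c).val : ℕ) : ZMod d) = 0 := by
        push_cast
        rw [hval, hval, hval, ← map_add, ← map_add, h, map_zero]
      rw [ZMod.natCast_eq_zero_iff] at h1
      obtain ⟨k, hk⟩ := h1
      rcases (by omega : k = 0 ∨ k = 1 ∨ 2 ≤ k) with rfl | rfl | hk2
      · omega
      · omega
      · have : d * 2 ≤ d * k := Nat.mul_le_mul_left d hk2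
        omega
    · intro h
      have h1 : (((f a).val + (f b).val : ℕ) : ZMod d) = (((f c).val : ℕ) : ZMod d) := by
        push_cast
        rw [hval, hval, hval, ← map_add, h]
      rw [ZMod.natCast_eq_natCast_iff'] at h1
      have hc3 : (f c).val < d := ZMod.val_lt _
      rw [Nat.mod_eq_of_lt hc3] at h1
      have h2 : (f a).val + (f b).val = d * (((f a).val + (f b).val) / d) + (f c).val := by
        conv_lhs => rw [← Nat.div_add_mod ((f a).val + (f b).val) d, h1]
      obtain ⟨k, hk⟩ : ∃ k : ℕ, k = ((f a).val + (f b).val) / d := ⟨_, rfl⟩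
      rw [← hk] at h2
      rcases (by omega : k = 0 ∨ k = 1 ∨ 2 ≤ k) with h0 | h0 | hk2
      · rw [h0] at h2; omega
      · rw [h0] at h2; omega
      · have : d * 2 ≤ d * k := Nat.mul_le_mul_left d hk2
        omega
  · rw [preimage_card d e hd J, hJ,
      val_filter_card d (fun r => d < 3 * r ∧ 3 * r < 2 * d)]

theorem count_two (d : ℕ) (h : d % 3 = 2) :
    ((range d).filter (fun r => d < 3 * r ∧ 3 * r < 2 * d)).card = (d + 1) / 3 := by
  obtain ⟨k, rfl⟩ : ∃ k, d = 3 * k + 2 := ⟨d / 3, by omega⟩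
  have : (range (3 * k + 2)).filter (fun r => 3 * k + 2 < 3 * r ∧ 3 * r < 2 * (3 * k + 2))
      = Ico (k + 1) (2 * k + 2) := by
    ext r
    simp only [mem_filter, mem_range, mem_Ico]
    omega
  rw [this, Nat.card_Ico]
  omega

theorem count_other (d : ℕ) (hd : 1 ≤ d) (h : d % 3 ≠ 2) :
    ((range d).filter (fun r => d < 3 * r ∧ 3 * r < 2 * d)).card = (d - 1) / 3 := by
  rcases (by omega : d % 3 = 0 ∨ d % 3 = 1) with h0 | h1
  · obtain ⟨k, rfl⟩ : ∃ k, d = 3 * k + 3 := ⟨d / 3 - 1, by omega⟩
    have : (range (3 * k + 3)).filter (fun r => 3 * k + 3 < 3 * r ∧ 3 * r < 2 * (3 * k + 3))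
        = Ico (k + 2) (2 * k + 2) := by
      ext r
      simp only [mem_filter, mem_range, mem_Ico]
      omega
    rw [this, Nat.card_Ico]
    omega
  · obtain ⟨k, rfl⟩ : ∃ k, d = 3 * k + 1 := ⟨d / 3, by omega⟩
    have : (range (3 * k + 1)).filter (fun r => 3 * k + 1 < 3 * r ∧ 3 * r < 2 * (3 * k + 1))
        = Ico (k + 1) (2 * k + 1) := by
      ext r
      simp only [mem_filter, mem_range, mem_Ico]
      omega
    rw [this, Nat.card_Ico]
    omega

theorem le_tau (n : ℕ) [NeZero n] (A : Finset (ZMod n)) (hA : ZeroThreeFree A) :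
    A.card ≤ tau n :=
  le_csSup ⟨n, fun m hm => tau_le n m hm⟩ ⟨A, hA, rfl⟩

theorem tau_attained (n : ℕ) [NeZero n] : ∃ A : Finset (ZMod n), ZeroThreeFree A ∧
    A.card = tau n := by
  have hne : {m | ∃ A : Finset (ZMod n), ZeroThreeFree A ∧ A.card = m}.Nonempty :=
    ⟨0, ∅, fun a ha => absurd ha (notMem_empty a), card_empty⟩
  exact Nat.sSup_mem hne ⟨n, fun m hm => tau_le n m hm⟩

theorem no_prime_case (n : ℕ) (hn : 1 ≤ n) (h : ∀ q : ℕ, q.Prime → q ∣ n → q % 3 ≠ 2) :
    tau n = (n - 1) / 3 := by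
  have : NeZero n := ⟨by omega⟩
  have hn3 : n % 3 ≠ 2 := mod_three_aux n h (by omega)
  have hodd : Odd n := by
    rw [← Nat.not_even_iff_odd, even_iff_two_dvd]
    intro h2
    exact h 2 Nat.prime_two h2 rfl
  apply le_antisymm
  · obtain ⟨A, hA, hcard⟩ := tau_attained n
    rw [← hcard]
    rcases A.eq_empty_or_nonempty with rfl | hne
    · rw [card_empty]; omega
    · obtain ⟨d, e, hde, he, -, h2, h3, h4⟩ := upper_dvd n A hA hne
      have hd0 : d ≠ 0 := by rintro rfl; omega
      have hd3 : d % 3 ≠ 2 := mod_three_aux d (fun q hq hqd => h q hq (hde ▸ Dvd.dvd.mul_right hqd e)) hd0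
      have h5 := h2 hd3
      have h6 := h4 hodd hd3
      rw [hde] at h5
      omega
  · obtain ⟨A, hA, hcard⟩ := lower_dvd n 1 hn le_rfl
    rw [count_other n hn hn3] at hcard
    have hcard' : A.card = (n - 1) / 3 := hcard.trans (Nat.mul_one _)
    rw [← hcard']
    have h1 : n * 1 = n := mul_one n
    have key : ∀ m : ℕ, m = n → ∀ A : Finset (ZMod m), ZeroThreeFree A → A.card ≤ tau n := by
      rintro m rfl A hA
      exact le_tau m A hA
    exact key (n * 1) h1 A hA

theorem prime_case (n p : ℕ) (hn : 1 ≤ n) (hp : p.Prime) (hpn : p ∣ n) (hp3 : p % 3 = 2)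
    (hmin : ∀ q : ℕ, q.Prime → q ∣ n → q % 3 = 2 → p ≤ q) :
    3 * p * tau n = (p + 1) * n := by
  have : NeZero n := ⟨by omega⟩
  apply le_antisymm
  · obtain ⟨A, hA, hcard⟩ := tau_attained n
    rw [← hcard]
    rcases A.eq_empty_or_nonempty with rfl | hne
    · rw [card_empty, mul_zero]; exact Nat.zero_le _
    · obtain ⟨d, e, hde, he, h1, h2, -, -⟩ := upper_dvd n A hA hne
      have hd0 : d ≠ 0 := by rintro rfl; omega
      by_cases hd3 : d % 3 = 2
      · have hpd : p ≤ d := by
          by_contra hcon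
          push Not at hcon
          apply mod_three_aux d _ hd0 hd3
          intro q hq hqd hq3
          have := hmin q hq (hde ▸ Dvd.dvd.mul_right hqd e) hq3
          have := Nat.le_of_dvd (by omega) hqd
          omega
        calc 3 * p * A.card = p * (3 * A.card) := by ring
          _ ≤ p * ((d + 1) * e) := Nat.mul_le_mul_left p h1
          _ = (p * d + p) * e := by ring
          _ ≤ (p * d + d) * e := Nat.mul_le_mul_right e (by omega)
          _ = (p + 1) * (d * e) := by ring
          _ = (p + 1) * n := by rw [hde]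
      · have h5 := h2 hd3
        rw [hde] at h5
        calc 3 * p * A.card = p * (3 * A.card) := by ring
          _ ≤ p * n := Nat.mul_le_mul_left p h5
          _ ≤ (p + 1) * n := Nat.mul_le_mul_right n (by omega)
  · obtain ⟨e, rfl⟩ := hpn
    have he : 1 ≤ e := by
      rcases Nat.eq_zero_or_pos e with rfl | h
      · rw [mul_zero] at hn; omega
      · exact h
    obtain ⟨A, hA, hcard⟩ := lower_dvd p e hp.one_lt.le he
    rw [count_two p hp3] at hcard
    have h1 := le_tau (p * e) A hA
    rw [hcard] at h1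
    have h3 : 3 * ((p + 1) / 3) = p + 1 := by omega
    calc (p + 1) * (p * e) = p * (3 * ((p + 1) / 3) * e) := by rw [h3]; ring
      _ = 3 * p * ((p + 1) / 3 * e) := by ring
      _ ≤ 3 * p * tau (p * e) := Nat.mul_le_mul_left _ h1

/-- For every positive integer `n`, `τ_±(ℤ_n, 3) = v(n)`. -/
theorem result : ∀ n : ℕ, 1 ≤ n → (tau n : ℚ) = v n := by
  intro n hn
  classical
  unfold v
  split_ifs with h
  · have hspec := Nat.find_spec h
    have hmin : ∀ q : ℕ, q.Prime → q ∣ n → q % 3 = 2 → Nat.find h ≤ q := fun q h1 h2 h3 =>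
      Nat.find_min' h ⟨h1, h2, h3⟩
    have h1 := prime_case n (Nat.find h) hn hspec.1 hspec.2.1 hspec.2.2 hmin
    have hp0 : ((Nat.find h : ℕ) : ℚ) ≠ 0 := by exact_mod_cast hspec.1.ne_zero
    have h2 : ((3 * Nat.find h * tau n : ℕ) : ℚ) = (((Nat.find h + 1) * n : ℕ) : ℚ) := by
      exact_mod_cast h1
    push_cast at h2
    field_simp
    linarith
  · have h' : ∀ q : ℕ, q.Prime → q ∣ n → q % 3 ≠ 2 := fun q h1 h2 h3 => h ⟨q, h1, h2, h3⟩
    rw [no_prime_case n hn h']

end Pool.Agent.Results.MP_25b479_co.ExactTau
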